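import Pool.Agent.Lib.MP_b23a2c_al.Defs

set_option autoImplicit false

namespace Pool.Agent.Lib.MP_b23a2c_al

open CategoryTheory Limits

universe u v

variable {k : Type u} [Field k] {I : FI ⥤ ModuleCat.{v} k}

/-- A family of subspaces is closed if it is stable under the transition maps. -/
def Closed (I : FI ⥤ ModuleCat.{v} k) (A : ∀ n : FI, Submodule k (I.obj n)) : Prop :=
  ∀ (m n : FI) (f : m ⟶ n), ∀ x ∈ A m, (I.map f).hom x ∈ A n

theorem map_comp_apply {l m n : FI} (f : l ⟶ m) (g : m ⟶ n) (x : I.obj l) :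
    (I.map (f ≫ g)).hom x = (I.map g).hom ((I.map f).hom x) := by
  rw [I.map_comp]; rfl

theorem map_id_apply {m : FI} (x : I.obj m) : (I.map (𝟙 m)).hom x = x := by
  rw [I.map_id]; rfl

theorem exists_maximal (A B : ∀ n : FI, Submodule k (I.obj n)) (hB : Closed I B)
    (hAB : ∀ n, Disjoint (A n) (B n)) :
    ∃ C : ∀ n : FI, Submodule k (I.obj n), Closed I C ∧ B ≤ C ∧ (∀ n, Disjoint (A n) (C n)) ∧
      ∀ C' : ∀ n : FI, Submodule k (I.obj n), Closed I C' → C ≤ C' →
        (∀ n, Disjoint (A n) (C' n)) → C' ≤ C := by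
  obtain ⟨C, hBC, hC⟩ := zorn_le_nonempty₀
    {C : ∀ n : FI, Submodule k (I.obj n) | Closed I C ∧ ∀ n, Disjoint (A n) (C n)}
    (fun c hc hchain y hy => by
      have : Nonempty c := ⟨⟨y, hy⟩⟩
      have hdir : ∀ n, Directed (· ≤ ·) (fun D : c => D.1 n) := by
        intro n D1 D2
        rcases hchain.total D1.2 D2.2 with h | h
        · exact ⟨D2, h n, le_rfl⟩
        · exact ⟨D1, le_rfl, h n⟩
      refine ⟨fun n => ⨆ D : c, D.1 n, ⟨?_, ?_⟩, fun z hz n => le_iSup (fun D : c => D.1 n) ⟨z, hz⟩⟩
      · intro m n f x hx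
        obtain ⟨D, hD⟩ := (Submodule.mem_iSup_of_directed _ (hdir m)).1 hx
        exact (le_iSup (fun D : c => D.1 n) D) ((hc D.2).1 m n f x hD)
      · intro n
        rw [Submodule.disjoint_def]
        intro x hxA hx
        obtain ⟨D, hD⟩ := (Submodule.mem_iSup_of_directed _ (hdir n)).1 hx
        exact (Submodule.disjoint_def.1 ((hc D.2).2 n)) x hxA hD) B ⟨hB, hAB⟩
  exact ⟨C, hC.1.1, hBC, hC.1.2, fun C' h1 h2 h3 => hC.2 ⟨h1, h3⟩ h2⟩

/-- The sub-FI-module given by a closed family. -/
noncomputable def subF (A : ∀ n : FI, Submodule k (I.obj n)) (hA : Closed I A) :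
    FI ⥤ ModuleCat.{v} k where
  obj n := ModuleCat.of k (A n)
  map {m n} f := ModuleCat.ofHom ((I.map f).hom.restrict (hA m n f))
  map_id n := by
    ext x
    exact map_id_apply x.1
  map_comp f g := by
    ext x
    exact map_comp_apply f g x.1

/-- The inclusion of a sub-FI-module. -/
noncomputable def subInc (A : ∀ n : FI, Submodule k (I.obj n)) (hA : Closed I A) :
    subF A hA ⟶ I where
  app n := ModuleCat.ofHom (A n).subtype
  naturality _ _ _ := rfl

/-- Corestriction of an endomorphism to a sub-FI-module. -/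
noncomputable def subLift (A : ∀ n : FI, Submodule k (I.obj n)) (hA : Closed I A) (φ : I ⟶ I)
    (hφ : ∀ n x, (φ.app n).hom x ∈ A n) : I ⟶ subF A hA where
  app n := ModuleCat.ofHom (LinearMap.codRestrict (A n) (φ.app n).hom (hφ n))
  naturality m n f := by
    ext x
    apply Subtype.ext
    exact congrArg (fun h => h.hom x) (φ.naturality f)

/-- The external direct sum of two sub-FI-modules. -/
noncomputable def prodF (A B : ∀ n : FI, Submodule k (I.obj n)) (hA : Closed I A)
    (hB : Closed I B) : FI ⥤ ModuleCat.{v} k where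
  obj n := ModuleCat.of k (A n × B n)
  map {m n} f := ModuleCat.ofHom
    (((I.map f).hom.restrict (hA m n f)).prodMap ((I.map f).hom.restrict (hB m n f)))
  map_id n := by
    apply ModuleCat.hom_ext
    apply LinearMap.ext
    rintro ⟨x, y⟩
    exact Prod.ext (Subtype.ext (map_id_apply x.1)) (Subtype.ext (map_id_apply y.1))
  map_comp f g := by
    apply ModuleCat.hom_ext
    apply LinearMap.ext
    rintro ⟨x, y⟩
    exact Prod.ext (Subtype.ext (map_comp_apply f g x.1)) (Subtype.ext (map_comp_apply f g y.1))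

/-- The sum map. -/
noncomputable def prodSum (A B : ∀ n : FI, Submodule k (I.obj n)) (hA : Closed I A)
    (hB : Closed I B) : prodF A B hA hB ⟶ I where
  app n := ModuleCat.ofHom ((A n).subtype.coprod (B n).subtype)
  naturality m n f := by
    apply ModuleCat.hom_ext
    apply LinearMap.ext
    rintro ⟨x, y⟩
    exact ((I.map f).hom.map_add x.1 y.1).symm

/-- The first projection. -/
noncomputable def prodFst (A B : ∀ n : FI, Submodule k (I.obj n)) (hA : Closed I A)
    (hB : Closed I B) : prodF A B hA hB ⟶ I where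
  app n := ModuleCat.ofHom ((A n).subtype ∘ₗ LinearMap.fst k _ _)
  naturality _ _ _ := rfl

theorem exists_ext (hinj : Injective I) (A B : ∀ n : FI, Submodule k (I.obj n)) (hA : Closed I A)
    (hB : Closed I B) (hAB : ∀ n, Disjoint (A n) (B n)) :
    ∃ φ : I ⟶ I, (∀ n, ∀ x ∈ A n, (φ.app n).hom x = x) ∧ ∀ n, ∀ x ∈ B n, (φ.app n).hom x = 0 := by
  have : ∀ n, Mono ((prodSum A B hA hB).app n) := by
    intro n
    rw [ModuleCat.mono_iff_injective]
    show Function.Injective ((A n).subtype.coprod (B n).subtype)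
    rw [← LinearMap.ker_eq_bot, LinearMap.ker_coprod_of_disjoint_range]
    · simp
    · simpa using hAB n
  have : Mono (prodSum A B hA hB) := NatTrans.mono_of_mono_app _
  obtain ⟨φ, hφ⟩ := hinj.factors (prodFst A B hA hB) (prodSum A B hA hB)
  have h : ∀ n (x : A n) (y : B n), (φ.app n).hom (x.1 + y.1) = x.1 := fun n x y =>
    congrArg (fun h : prodF A B hA hB ⟶ I => (h.app n).hom (x, y)) hφ
  refine ⟨φ, fun n x hx => ?_, fun n x hx => ?_⟩
  · simpa using h n ⟨x, hx⟩ 0
  · simpa using h n 0 ⟨x, hx⟩

theorem nat_apply (φ : I ⟶ I) {m n : FI} (f : m ⟶ n) (x : I.obj m) :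
    (φ.app n).hom ((I.map f).hom x) = (I.map f).hom ((φ.app m).hom x) :=
  congrArg (fun h => h.hom x) (φ.naturality f)

theorem isZero_subF (A : ∀ n : FI, Submodule k (I.obj n)) (hA : Closed I A)
    (h : IsZero (subF A hA)) (n : FI) : A n = ⊥ := by
  have h1 : IsZero ((subF A hA).obj n) := (evaluation FI (ModuleCat.{v} k)).obj n |>.map_isZero h
  have h2 : Subsingleton (A n) := ModuleCat.subsingleton_of_isZero h1
  exact Submodule.subsingleton_iff_eq_bot.1 h2

/-- An indecomposable injective FI-module is uniform. -/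
theorem uniform (hinj : Injective I) (hind : Indecomposable I)
    (A B : ∀ n : FI, Submodule k (I.obj n)) (hA : Closed I A) (hB : Closed I B)
    (hAB : ∀ n, Disjoint (A n) (B n)) : (∀ n, A n = ⊥) ∨ ∀ n, B n = ⊥ := by
  obtain ⟨C, hC, hBC, hAC, hCmax⟩ := exists_maximal A B hB hAB
  obtain ⟨E, hE, hAE, hCE, hEmax⟩ := exists_maximal C A hA (fun n => (hAC n).symm)
  obtain ⟨φ, hφE, hφC⟩ := exists_ext hinj E C hE hC (fun n => (hCE n).symm)
  have hCmax' : ∀ C' : ∀ n : FI, Submodule k (I.obj n), Closed I C' → C ≤ C' →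
      (∀ n, Disjoint (E n) (C' n)) → C' ≤ C := fun C' h1 h2 h3 =>
    hCmax C' h1 h2 fun n => (h3 n).mono_left (hAE n)
  have hY : (fun n => (C n).comap (φ.app n).hom) ≤ C := by
    apply hCmax'
    · intro m n f x hx
      show (φ.app n).hom ((I.map f).hom x) ∈ C n
      rw [nat_apply]
      exact hC m n f _ hx
    · intro n x hx
      show (φ.app n).hom x ∈ C n
      rw [hφC n x hx]; exact (C n).zero_mem
    · intro n
      rw [Submodule.disjoint_def]
      intro x hxE hx
      have : (φ.app n).hom x ∈ C n := hx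
      rw [hφE n x hxE] at this
      exact (Submodule.disjoint_def.1 (hCE n)) x this hxE
  have hR : (fun n => LinearMap.range (φ.app n).hom) ≤ E := by
    apply hEmax
    · rintro m n f x ⟨y, rfl⟩
      exact ⟨_, nat_apply φ f y⟩
    · intro n x hx
      exact ⟨x, hφE n x hx⟩
    · intro n
      rw [Submodule.disjoint_def]
      rintro x hxC ⟨y, rfl⟩
      exact hφC n y (hY n hxC)
  have h1 : ∀ n x, (φ.app n).hom x ∈ E n := fun n x => hR n ⟨x, rfl⟩
  have h2 : ∀ n x, ((𝟙 I - φ).app n).hom x ∈ C n := fun n x => by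
    apply hY n
    show (φ.app n).hom (x - (φ.app n).hom x) ∈ C n
    rw [map_sub, hφE n _ (h1 n x), sub_self]
    exact (C n).zero_mem
  let iso : I ≅ subF E hE ⊞ subF C hC :=
    { hom := biprod.lift (subLift E hE φ h1) (subLift C hC (𝟙 I - φ) h2)
      inv := biprod.desc (subInc E hE) (subInc C hC)
      hom_inv_id := by
        rw [biprod.lift_desc]
        ext n x
        show (φ.app n).hom x + (x - (φ.app n).hom x) = x
        abel
      inv_hom_id := by
        apply biprod.hom_ext' <;> apply biprod.hom_ext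
        · simp only [biprod.inl_desc_assoc, Category.assoc, biprod.lift_fst, Category.comp_id,
            biprod.inl_fst]
          ext n x
          apply Subtype.ext
          exact hφE n x.1 x.2
        · simp only [biprod.inl_desc_assoc, Category.assoc, biprod.lift_snd, Category.comp_id,
            biprod.inl_snd]
          ext n x
          apply Subtype.ext
          show x.1 - (φ.app n).hom x.1 = 0
          rw [hφE n x.1 x.2, sub_self]
        · simp only [biprod.inr_desc_assoc, Category.assoc, biprod.lift_fst, Category.comp_id,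
            biprod.inr_fst]
          ext n x
          apply Subtype.ext
          exact hφC n x.1 x.2
        · simp only [biprod.inr_desc_assoc, Category.assoc, biprod.lift_snd, Category.comp_id,
            biprod.inr_snd]
          ext n x
          apply Subtype.ext
          show x.1 - (φ.app n).hom x.1 = x.1
          rw [hφC n x.1 x.2, sub_zero] }
  rcases hind.2 _ _ iso with h | h
  · left
    intro n
    exact le_bot_iff.1 ((hAE n).trans (isZero_subF E hE h n).le)
  · right
    intro n
    exact le_bot_iff.1 ((hBC n).trans (isZero_subF C hC h n).le)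

end Pool.Agent.Lib.MP_b23a2c_al
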