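import Pool.Agent.Lib.MP_b23a2c_al.Length
import Pool.Agent.Lib.MP_b23a2c_al.Uniform

set_option autoImplicit false

namespace Pool.Agent.Lib.MP_b23a2c_al

open CategoryTheory

universe u v

variable {k : Type u} [Field k] (I : FI ⥤ ModuleCat.{v} k)

/-- The standard inclusion `[i] → [j]`. -/
def inc {i j : ℕ} (h : i ≤ j) : (⟨i⟩ : FI) ⟶ ⟨j⟩ := Fin.castLEEmb h

/-- The transition maps along the standard inclusions. -/
noncomputable def tr (i j : ℕ) (h : i ≤ j) : I.obj ⟨i⟩ →ₗ[k] I.obj ⟨j⟩ := (I.map (inc h)).hom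

instance directedSystem_tr : DirectedSystem (fun n : ℕ => (I.obj ⟨n⟩ : Type v)) (fun i j h => tr I i j h) where
  map_self _ x := map_id_apply x
  map_map _ _ _ hij hjk x := (map_comp_apply (inc hij) (inc hjk) x).symm

/-- The colimit along the standard inclusions. -/
abbrev W : Type v := Module.DirectLimit (fun n : ℕ => (I.obj ⟨n⟩ : Type v)) (tr I)

/-- The canonical map into the colimit. -/
noncomputable def ofW (n : ℕ) : I.obj ⟨n⟩ →ₗ[k] W I :=
  Module.DirectLimit.of k ℕ (fun n : ℕ => (I.obj ⟨n⟩ : Type v)) (tr I) n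

theorem ofW_tr {i j : ℕ} (h : i ≤ j) (x : I.obj ⟨i⟩) : ofW I j (tr I i j h x) = ofW I i x :=
  Module.DirectLimit.of_f

theorem ofW_eq {n m m' : ℕ} (f : (⟨n⟩ : FI) ⟶ ⟨m⟩) (f' : (⟨n⟩ : FI) ⟶ ⟨m'⟩)
    (h : ∀ i, (f.toFun i).val = (f'.toFun i).val) (x : I.obj ⟨n⟩) :
    ofW I m ((I.map f).hom x) = ofW I m' ((I.map f').hom x) := by
  rw [← ofW_tr I (le_max_left m m'), ← ofW_tr I (le_max_right m m')]
  congr 1
  show (I.map _).hom ((I.map f).hom x) = (I.map _).hom ((I.map f').hom x)
  rw [← map_comp_apply, ← map_comp_apply]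
  have : f ≫ inc (le_max_left m m') = f' ≫ inc (le_max_right m m') := by
    apply Function.Embedding.ext
    intro i
    exact Fin.ext (h i)
  rw [this]

/-- A bound for the entries of a tuple. -/
def bnd {n : ℕ} (t : Fin n → ℕ) : ℕ := Finset.univ.sup t + 1

theorem lt_bnd {n : ℕ} (t : Fin n → ℕ) (i : Fin n) : t i < bnd t :=
  Nat.lt_succ_of_le (Finset.le_sup (f := t) (Finset.mem_univ i))

/-- An injective tuple as a morphism of FI. -/
def toHom {n : ℕ} (t : Fin n → ℕ) (ht : Function.Injective t) : (⟨n⟩ : FI) ⟶ ⟨bnd t⟩ :=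
  ⟨fun i => ⟨t i, lt_bnd t i⟩, fun _ _ h => ht (congrArg Fin.val h)⟩

open Classical in
/-- The map into the colimit given by a tuple, zero if the tuple is not injective. -/
noncomputable def iota {n : ℕ} (t : Fin n → ℕ) : I.obj ⟨n⟩ →ₗ[k] W I :=
  if ht : Function.Injective t then ofW I (bnd t) ∘ₗ (I.map (toHom t ht)).hom else 0

theorem iota_eq {n m : ℕ} (f : (⟨n⟩ : FI) ⟶ ⟨m⟩) (t : Fin n → ℕ)
    (h : ∀ i, t i = (f.toFun i).val) (x : I.obj ⟨n⟩) :
    iota I t x = ofW I m ((I.map f).hom x) := by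
  have ht : Function.Injective t := by
    intro i j hij
    rw [h, h] at hij
    exact f.injective (Fin.ext hij)
  rw [iota, dif_pos ht]
  exact ofW_eq I _ _ h x

theorem iota_val {n : ℕ} (x : I.obj ⟨n⟩) : iota I (fun i : Fin n => i.val) x = ofW I n x := by
  rw [iota_eq I (𝟙 (⟨n⟩ : FI)) (fun i : Fin n => i.val) (fun _ => rfl), map_id_apply]

theorem iota_map {n m : ℕ} (f : (⟨n⟩ : FI) ⟶ ⟨m⟩) (t : Fin m → ℕ) (ht : Function.Injective t)
    (x : I.obj ⟨n⟩) : iota I t ((I.map f).hom x) = iota I (t ∘ f.toFun) x := by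
  rw [iota_eq I (toHom t ht) t (fun _ => rfl), ← map_comp_apply,
    iota_eq I (f ≫ toHom t ht) (t ∘ f.toFun) (fun _ => rfl)]

/-- The action of a permutation of `ℕ` on the colimit. -/
noncomputable def rho (g : Equiv.Perm ℕ) : W I →ₗ[k] W I :=
  Module.DirectLimit.lift k ℕ (fun n : ℕ => (I.obj ⟨n⟩ : Type v)) (tr I)
    (fun n => iota I (fun i : Fin n => g i.val))
    (fun _ _ hij x => iota_map I (inc hij) _ (g.injective.comp Fin.val_injective) x)

theorem rho_ofW (g : Equiv.Perm ℕ) {n : ℕ} (x : I.obj ⟨n⟩) :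
    rho I g (ofW I n x) = iota I (fun i : Fin n => g i.val) x :=
  Module.DirectLimit.lift_of _ _ _

theorem rho_iota (g : Equiv.Perm ℕ) {n : ℕ} (t : Fin n → ℕ) (x : I.obj ⟨n⟩) :
    rho I g (iota I t x) = iota I (g ∘ t) x := by
  by_cases ht : Function.Injective t
  · rw [iota_eq I (toHom t ht) t (fun _ => rfl), rho_ofW,
      iota_map I _ (fun i : Fin (bnd t) => g i.val) (g.injective.comp Fin.val_injective)]
    rfl
  · have ht' : ¬ Function.Injective (g ∘ t) := fun h => ht h.of_comp
    rw [iota, dif_neg ht, iota, dif_neg ht']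
    simp

variable {I}

theorem ofW_injective (htf : ∀ (m n : FI) (f : m ⟶ n), Function.Injective (I.map f).hom) (n : ℕ)
    (x : I.obj ⟨n⟩) (hx : ofW I n x = 0) : x = 0 := by
  obtain ⟨j, hj, h⟩ := Module.DirectLimit.exists_eq_of_of_eq (hx.trans (map_zero (ofW I n)).symm)
  exact htf _ _ (inc hj) h

/-- Invariant subspaces of the colimit meet. -/
theorem uniformW (hinj : Injective I) (hind : Indecomposable I) (A B : Submodule k (W I))
    (hA : ∀ g, ∀ x ∈ A, rho I g x ∈ A) (hB : ∀ g, ∀ x ∈ B, rho I g x ∈ B)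
    (hAB : Disjoint A B)
    (htf : ∀ (m n : FI) (f : m ⟶ n), Function.Injective (I.map f).hom) : A = ⊥ ∨ B = ⊥ := by
  have hc : ∀ A : Submodule k (W I), (∀ g, ∀ x ∈ A, rho I g x ∈ A) →
      Closed I (fun n => A.comap (ofW I n.size)) := by
    intro A hA m n f x hx
    obtain ⟨g, hg⟩ := Equiv.Perm.exists_extending_pair (fun i : Fin m.size => i.val)
      (fun i : Fin m.size => (f.toFun i).val) Fin.val_injective
      (Fin.val_injective.comp f.injective)
    show ofW I n.size ((I.map f).hom x) ∈ A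
    rw [← iota_eq I (n := m.size) (m := n.size) f (fun i : Fin m.size => g i.val) hg x, ← rho_ofW]
    exact hA g _ hx
  have hz : ∀ A : Submodule k (W I), (∀ n : FI, A.comap (ofW I n.size) = ⊥) → A = ⊥ := by
    intro A h
    rw [eq_bot_iff]
    intro w hw
    obtain ⟨n, x, rfl⟩ := Module.DirectLimit.exists_of w
    have : x ∈ A.comap (ofW I n) := hw
    rw [h ⟨n⟩, Submodule.mem_bot] at this
    rw [this, map_zero]
    exact Submodule.zero_mem _
  rcases uniform hinj hind _ _ (hc A hA) (hc B hB) (fun n => by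
    rw [Submodule.disjoint_def]
    intro x h1 h2
    exact ofW_injective htf _ x ((Submodule.disjoint_def.1 hAB) _ h1 h2)) with h | h
  · exact Or.inl (hz A h)
  · exact Or.inr (hz B h)

variable (I)

/-- Evaluation of formal combinations of tuples. -/
noncomputable def EV (n : ℕ) : ((Fin n → ℕ) →₀ k) →ₗ[k] (I.obj ⟨n⟩ →ₗ[k] W I) :=
  Finsupp.linearCombination k (fun t : Fin n → ℕ => iota I t)

theorem EV_single {n : ℕ} (t : Fin n → ℕ) (c : k) (x : I.obj ⟨n⟩) :
    EV I n (Finsupp.single t c) x = c • iota I t x := by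
  simp [EV]

theorem EV_act {n : ℕ} (g : Equiv.Perm ℕ) (y : (Fin n → ℕ) →₀ k) (x : I.obj ⟨n⟩) :
    EV I n (act k (Fin n) g y) x = rho I g (EV I n y x) := by
  induction y using Finsupp.induction_linear with
  | zero => simp
  | add a b ha hb => simp [ha, hb]
  | single t c => rw [act_single, EV_single, EV_single, map_smul, rho_iota]

variable {I}

theorem finite_obj (hinj : Injective I) (hind : Indecomposable I)
    (htf : ∀ (m n : FI) (f : m ⟶ n), Function.Injective (I.map f).hom) (n : ℕ) :
    FiniteDimensional k (I.obj ⟨n⟩) := by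
  classical
  by_cases h0 : ∀ x : I.obj ⟨n⟩, x = 0
  · have : Subsingleton (I.obj ⟨n⟩) := ⟨fun a b => by rw [h0 a, h0 b]⟩
    infer_instance
  push Not at h0
  obtain ⟨x0, hx0⟩ := h0
  let ev : I.obj ⟨n⟩ → (((Fin n → ℕ) →₀ k) →ₗ[k] W I) := fun x => (EV I n).flip x
  have ev_act : ∀ x g y, ev x (act k (Fin n) g y) = rho I g (ev x y) := fun x g y => EV_act I g y x
  have ev_val : ∀ x, ev x (Finsupp.single (fun i : Fin n => i.val) 1) = ofW I n x := fun x => by
    show EV I n _ x = _
    rw [EV_single, one_smul, iota_val]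
  have hL0 : LinearMap.range (ev x0) ≠ ⊥ := by
    intro h
    have : ev x0 (Finsupp.single (fun i : Fin n => i.val) 1) ∈ LinearMap.range (ev x0) := ⟨_, rfl⟩
    rw [h, Submodule.mem_bot, ev_val] at this
    exact hx0 (ofW_injective htf n x0 this)
  have hL0inv : ∀ g, ∀ w ∈ LinearMap.range (ev x0), rho I g w ∈ LinearMap.range (ev x0) := by
    rintro g w ⟨y, rfl⟩
    exact ⟨_, ev_act x0 g y⟩
  obtain ⟨B, len, hB, hlen⟩ := exists_length' (k := k) (J := Fin n)
  let X : Submodule k ((Fin n → ℕ) →₀ k) → Submodule k (I.obj ⟨n⟩) := fun N =>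
    ⨅ y : N, LinearMap.ker (EV I n y.1)
  have memX : ∀ N x, x ∈ X N ↔ ∀ y ∈ N, ev x y = 0 := fun N x => by
    simp only [X, Submodule.mem_iInf, LinearMap.mem_ker, Subtype.forall]
    rfl
  have main : ∀ d : ℕ, ∀ N, Inv ∅ N → B - len N ≤ d → (X N).FG := by
    intro d
    induction d using Nat.strong_induction_on with
    | _ d ih =>
      intro N hN hd
      by_cases htop : N = ⊤
      · have : X N = ⊥ := by
          rw [eq_bot_iff]
          intro x hx
          have := (memX N x).1 hx (Finsupp.single (fun i : Fin n => i.val) 1) (by simp [htop])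
          rw [ev_val] at this
          exact ofW_injective htf n x this
        rw [this]; exact Submodule.fg_bot
      have hex : ∃ m, ∃ N', Inv ∅ N' ∧ N < N' ∧ len N' = m :=
        ⟨_, ⊤, fun _ _ _ _ => Submodule.mem_top, lt_top_iff_ne_top.2 htop, rfl⟩
      obtain ⟨N', hN', hlt, hmin⟩ := Nat.find_spec hex
      have hcov : ∀ N'', Inv ∅ N'' → N < N'' → N'' ≤ N' → N'' = N' := by
        intro N'' h1 h2 h3
        by_contra hne
        have h4 := hlen N'' N' h1 hN' (lt_of_le_of_ne h3 hne)
        have h5 := Nat.find_min' hex ⟨N'', h1, h2, rfl⟩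
        omega
      have hl1 := hlen N N' hN hN' hlt
      have hl2 := hB N'
      have hfg' : (X N').FG := ih (B - len N') (by omega) N' hN' le_rfl
      obtain ⟨y, hyN', hyN⟩ := SetLike.exists_of_lt hlt
      -- a dichotomy for the preimages of invariant subspaces
      have hdich : ∀ x ∈ X N, ∀ A : Submodule k (W I), (∀ g, ∀ w ∈ A, rho I g w ∈ A) →
          (∃ z ∈ N', z ∉ N ∧ ev x z ∈ A) → ∀ z ∈ N', ev x z ∈ A := by
        rintro x hx A hA ⟨z, hz1, hz2, hz3⟩
        have h1 : Inv ∅ (N' ⊓ A.comap (ev x)) := by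
          rintro g hg z' ⟨h1, h2⟩
          refine ⟨hN' g hg z' h1, ?_⟩
          show ev x (act k (Fin n) g z') ∈ A
          rw [ev_act]; exact hA g _ h2
        have h2 : N < N' ⊓ A.comap (ev x) := by
          refine lt_of_le_of_ne (fun z' hz' => ⟨hlt.le hz', ?_⟩) (fun e => hz2 (e ▸ ⟨hz1, hz3⟩))
          show ev x z' ∈ A
          rw [(memX N x).1 hx z' hz']; exact A.zero_mem
        have h3 := hcov _ h1 h2 inf_le_left
        intro z' hz'
        rw [← h3] at hz'
        exact hz'.2
      apply Submodule.fg_of_fg_map_of_fg_inf_ker (EV I n y)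
      · let S : Finset ℕ := y.support.biUnion (fun t => Finset.univ.image t)
        let Fx : Submodule k (W I) := ⨅ p : {p : ℕ × ℕ // p.1 ∉ S ∧ p.2 ∉ S},
          LinearMap.ker (rho I (Equiv.swap p.1.1 p.1.2) - LinearMap.id)
        have memFx : ∀ w, w ∈ Fx ↔ ∀ a ∉ S, ∀ b ∉ S, rho I (Equiv.swap a b) w = w := fun w => by
          simp only [Fx, Submodule.mem_iInf, LinearMap.mem_ker, Subtype.forall, Prod.forall,
            LinearMap.sub_apply, LinearMap.id_apply, sub_eq_zero]
          exact ⟨fun h a ha b hb => h a b ⟨ha, hb⟩, fun h a b hab => h a hab.1 b hab.2⟩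
        have hq : ∀ a ∉ S, ∀ b ∉ S, ∀ z ∈ Fx.comap (ev x0),
            ev x0 (act k (Fin n) (Equiv.swap a b) z) = ev x0 z := by
          intro a ha b hb z hz
          rw [ev_act]
          exact (memFx _).1 hz a ha b hb
        obtain ⟨Θ, hΘ⟩ := key_lemma (ev x0) S (Fx.comap (ev x0)) (fun a ha b hb z hz => by
          show ev x0 _ ∈ Fx
          rw [hq a ha b hb z hz]; exact hz) hq
        have hle : (X N).map (EV I n y) ≤ LinearMap.range Θ := by
          rintro w ⟨x, hx, rfl⟩
          have hw : ev x y ∈ LinearMap.range (ev x0) := by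
            by_cases hxy : ev x y = 0
            · rw [hxy]; exact Submodule.zero_mem _
            have hA : ∀ g, ∀ w ∈ N'.map (ev x), rho I g w ∈ N'.map (ev x) := by
              rintro g w ⟨z, hz, rfl⟩
              exact ⟨_, hN' g (by simp) z hz, ev_act x g z⟩
            have hnd : ¬ Disjoint (N'.map (ev x)) (LinearMap.range (ev x0)) := by
              intro hd
              rcases uniformW hinj hind _ _ hA hL0inv hd htf with h | h
              · apply hxy
                have : ev x y ∈ N'.map (ev x) := ⟨y, hyN', rfl⟩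
                rwa [h, Submodule.mem_bot] at this
              · exact hL0 h
            rw [Submodule.disjoint_def] at hnd
            push Not at hnd
            obtain ⟨w, ⟨z, hz, rfl⟩, hw2, hw3⟩ := hnd
            exact hdich x hx _ hL0inv ⟨z, hz, fun e => hw3 ((memX N x).1 hx z e), hw2⟩ y hyN'
          obtain ⟨z, hz⟩ := hw
          have hzF : z ∈ Fx.comap (ev x0) := by
            show ev x0 z ∈ Fx
            rw [hz, memFx]
            intro a ha b hb
            rw [← ev_act, act_eq_self]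
            intro t ht j
            have : t j ∈ S :=
              Finset.mem_biUnion.2 ⟨t, ht, Finset.mem_image.2 ⟨j, Finset.mem_univ _, rfl⟩⟩
            exact Equiv.swap_apply_of_ne_of_ne (fun e => ha (e ▸ this)) (fun e => hb (e ▸ this))
          exact ⟨tau k (Fin n) S z, (hΘ z hzF).symm.trans hz⟩
        have : FiniteDimensional k ((X N).map (EV I n y)) := Submodule.finiteDimensional_of_le hle
        exact (Submodule.fg_iff_finiteDimensional _).2 this
      · have hle : X N ⊓ LinearMap.ker (EV I n y) ≤ X N' := by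
          rintro x ⟨hx, hxy⟩
          rw [memX]
          intro z hz
          have := hdich x hx ⊥ (fun g w hw => by
            rw [Submodule.mem_bot] at hw ⊢
            rw [hw, map_zero]) ⟨y, hyN', hyN, hxy⟩ z hz
          exact this
        have := (Submodule.fg_iff_finiteDimensional _).1 hfg'
        have : FiniteDimensional k (X N ⊓ LinearMap.ker (EV I n y) : Submodule k _) :=
          Submodule.finiteDimensional_of_le hle
        exact (Submodule.fg_iff_finiteDimensional _).2 this
  have hfg := main _ ⊥ (fun g _ y hy => by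
    rw [Submodule.mem_bot] at hy ⊢
    rw [hy, map_zero]) le_rfl
  have htop : X ⊥ = ⊤ := by
    rw [eq_top_iff]
    intro x _
    rw [memX]
    intro y hy
    rw [Submodule.mem_bot] at hy
    rw [hy, map_zero]
  rw [htop] at hfg
  exact ⟨hfg⟩

end Pool.Agent.Lib.MP_b23a2c_al
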