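import Mathlib

set_option autoImplicit false

namespace Pool.Agent.Lib.MP_b23a2c_al

open CategoryTheory

/-- Objects of the category FI: the object with `size = n` stands for the finite set `[n]`,
realised as `Fin n`. -/
structure FI where
  size : ℕ

/-- The category FI: a morphism `[m] → [n]` is an injective map `Fin m ↪ Fin n`; identities are
identity maps and composition is composition of maps. -/
instance FI.category : SmallCategory FI where
  Hom m n := Fin m.size ↪ Fin n.size
  id m := Function.Embedding.refl (Fin m.size)
  comp f g := Function.Embedding.trans f g
  id_comp _ := rfl
  comp_id _ := rfl
  assoc _ _ _ := rfl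

end Pool.Agent.Lib.MP_b23a2c_al
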