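import Pool.Agent.Lib.MP_b23a2c_al.Limit

set_option autoImplicit false

namespace Pool.Agent.Lib.MP_b23a2c_al

open Filter

universe u w

variable {k : Type u} [Field k] {J : Type} [Fintype J]

/-- Subspaces invariant under the pointwise stabiliser of `S`. -/
def Inv (S : Finset ℕ) (N : Submodule k ((J → ℕ) →₀ k)) : Prop :=
  ∀ g : Equiv.Perm ℕ, (∀ s ∈ S, g s = s) → ∀ y ∈ N, act k J g y ∈ N

omit [Fintype J] in
theorem Inv.swap {S : Finset ℕ} {N : Submodule k ((J → ℕ) →₀ k)} (h : Inv S N) :
    ∀ a ∉ S, ∀ b ∉ S, ∀ y ∈ N, act k J (Equiv.swap a b) y ∈ N := by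
  intro a ha b hb y hy
  refine h _ (fun s hs => ?_) y hy
  exact Equiv.swap_apply_of_ne_of_ne (fun e => ha (e ▸ hs)) (fun e => hb (e ▸ hs))

open Classical in
/-- Projection onto the span of the tuples containing `a`. -/
noncomputable def pr (k : Type u) [Field k] (J : Type) (a : ℕ) :
    ((J → ℕ) →₀ k) →ₗ[k] ((J → ℕ) →₀ k) where
  toFun := Finsupp.filter (fun t : J → ℕ => ∃ j, t j = a)
  map_add' _ _ := Finsupp.filter_add
  map_smul' _ _ := Finsupp.filter_smul

omit [Fintype J] in
theorem pr_single_pos (a : ℕ) (t : J → ℕ) (c : k) (h : ∃ j, t j = a) :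
    pr k J a (Finsupp.single t c) = Finsupp.single t c := by
  classical
  exact Finsupp.filter_single_of_pos (fun t : J → ℕ => ∃ j, t j = a) h

omit [Fintype J] in
theorem pr_single_neg (a : ℕ) (t : J → ℕ) (c : k) (h : ¬ ∃ j, t j = a) :
    pr k J a (Finsupp.single t c) = 0 := by
  classical
  exact Finsupp.filter_single_of_neg (fun t : J → ℕ => ∃ j, t j = a) h

omit [Fintype J] in
theorem pr_act (g : Equiv.Perm ℕ) (a : ℕ) (y : (J → ℕ) →₀ k) :
    pr k J (g a) (act k J g y) = act k J g (pr k J a y) := by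
  induction y using Finsupp.induction_linear with
  | zero => simp
  | add a b ha hb => simp [ha, hb]
  | single t c =>
    by_cases h : ∃ j, t j = a
    · rw [act_single, pr_single_pos _ _ _ h, act_single, pr_single_pos]
      obtain ⟨j, hj⟩ := h
      exact ⟨j, by simp [hj]⟩
    · rw [act_single, pr_single_neg _ _ _ h, map_zero, pr_single_neg]
      rintro ⟨j, hj⟩
      exact h ⟨j, g.injective hj⟩

omit [Fintype J] in
theorem mem_support_pr (a : ℕ) (y : (J → ℕ) →₀ k) (t : J → ℕ) :
    t ∈ (pr k J a y).support ↔ t ∈ y.support ∧ ∃ j, t j = a := by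
  classical
  show t ∈ (Finsupp.filter (fun t : J → ℕ => ∃ j, t j = a) y).support ↔ _
  rw [Finsupp.support_filter, Finset.mem_filter]

theorem ev_fresh_supp (y : (J → ℕ) →₀ k) :
    ∀ᶠ b in (cofinite : Filter ℕ), ∀ t ∈ y.support, ∀ j, t j ≠ b := by
  classical
  filter_upwards [(y.support.biUnion (fun t => Finset.univ.image t)).eventually_cofinite_notMem]
    with b hb t ht j hj
  exact hb (Finset.mem_biUnion.2 ⟨t, ht, Finset.mem_image.2 ⟨j, Finset.mem_univ _, hj⟩⟩)

theorem trivial_of_pr_eq {S : Finset ℕ} {N N' : Submodule k ((J → ℕ) →₀ k)} (hN : Inv S N)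
    (hN' : Inv S N') {a : ℕ} (ha : a ∉ S) (h : N'.map (pr k J a) ≤ N.map (pr k J a)) :
    ∀ a' ∉ S, ∀ b' ∉ S, ∀ y ∈ N', act k J (Equiv.swap a' b') y - y ∈ N := by
  have h1 : ∀ a' ∉ S, ∀ y ∈ N', ∃ z ∈ N, pr k J a' z = pr k J a' y := by
    intro a' ha' y hy
    obtain ⟨z, hz, hz'⟩ := h ⟨_, hN'.swap a ha a' ha' y hy, rfl⟩
    refine ⟨act k J (Equiv.swap a a') z, hN.swap a ha a' ha' z hz, ?_⟩
    have e1 := pr_act (Equiv.swap a a') a z
    have e2 := pr_act (Equiv.swap a a') a (act k J (Equiv.swap a a') y)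
    rw [Equiv.swap_apply_left] at e1 e2
    rw [act_act, Equiv.swap_mul_self, act_one] at e2
    rw [e1, e2, hz']
  have h2 : ∀ a' ∉ S, ∀ y ∈ N', ∀ᶠ b in (cofinite : Filter ℕ),
      act k J (Equiv.swap a' b) y - y ∈ N := by
    intro a' ha' y hy
    obtain ⟨z, hz, hz'⟩ := h1 a' ha' y hy
    filter_upwards [ev_fresh_supp (y - z), S.eventually_cofinite_notMem] with b hb hbS
    have e : act k J (Equiv.swap a' b) (y - z) = y - z := by
      apply act_eq_self
      intro t ht j
      refine Equiv.swap_apply_of_ne_of_ne (fun e => ?_) (hb t ht j)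
      have : t ∈ (pr k J a' (y - z)).support := (mem_support_pr _ _ _).2 ⟨ht, j, e⟩
      rw [map_sub, hz', sub_self] at this
      simp at this
    rw [map_sub] at e
    have e' : act k J (Equiv.swap a' b) y - y = act k J (Equiv.swap a' b) z - z := by
      rw [sub_eq_iff_eq_add] at e
      rw [e]; abel
    rw [e']
    exact N.sub_mem (hN.swap a' ha' b hbS z hz) hz
  intro a' ha' b' hb' y hy
  by_cases hab : a' = b'
  · subst hab
    rw [Equiv.swap_self]
    have : act k J (Equiv.refl ℕ) y = y := act_one y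
    rw [this, sub_self]; exact N.zero_mem
  obtain ⟨c, hc1, hc2, hc3, hc4⟩ := ((h2 a' ha' y hy).and ((h2 b' hb' y hy).and
    (S.eventually_cofinite_notMem.and
      (({a', b'} : Finset ℕ).eventually_cofinite_notMem)))).exists
  have hca : c ≠ a' := fun e => hc4 (by simp [e])
  have hcb : c ≠ b' := fun e => hc4 (by simp [e])
  have e : Equiv.swap a' b' = Equiv.swap a' c * Equiv.swap b' c * Equiv.swap a' c := by
    rw [Equiv.swap_comm a' c, Equiv.swap_mul_swap_mul_swap (Ne.symm hcb) (Ne.symm hab),
      Equiv.swap_comm]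
  rw [e, ← act_act, ← act_act]
  set u := act k J (Equiv.swap a' c) y - y with hu
  set v := act k J (Equiv.swap b' c) y - y with hv
  have e1 : act k J (Equiv.swap a' c) y = y + u := by rw [hu]; abel
  have e2 : act k J (Equiv.swap b' c) y = y + v := by rw [hv]; abel
  rw [e1, map_add, e2, map_add, map_add, e1]
  have : y + u + act k J (Equiv.swap a' c) v
      + act k J (Equiv.swap a' c) (act k J (Equiv.swap b' c) u) - y
      = u + act k J (Equiv.swap a' c) v
      + act k J (Equiv.swap a' c) (act k J (Equiv.swap b' c) u) := by abel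
  rw [this]
  exact N.add_mem (N.add_mem hc1 (hN.swap a' ha' c hc3 v hc2))
    (hN.swap a' ha' c hc3 _ (hN.swap b' hb' c hc3 u hc1))

/-- Tuples with fewer than `d` distinct entries outside `S`. -/
def small (J : Type) [Fintype J] (S : Finset ℕ) (d : ℕ) : Set (J → ℕ) :=
  {t | ((Finset.univ.image t) \ S).card < d}

theorem exists_length (d : ℕ) : ∀ S : Finset ℕ, ∃ B : ℕ,
    ∃ len : Submodule k ((J → ℕ) →₀ k) → ℕ, (∀ N, len N ≤ B) ∧
      ∀ N N', Inv S N → Inv S N' → N' ≤ Finsupp.supported k k (small J S d) → N < N' →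
        len N < len N' := by
  classical
  induction d with
  | zero =>
    intro S
    refine ⟨0, fun _ => 0, fun _ => le_rfl, fun N N' _ _ h hlt => ?_⟩
    exfalso
    have : small J S 0 = ∅ := by
      ext t; simp [small]
    rw [this, Finsupp.supported_empty] at h
    exact not_lt_bot (hlt.trans_le h)
  | succ d ih =>
    intro S
    obtain ⟨a, ha⟩ := S.eventually_cofinite_notMem.exists
    obtain ⟨B, len, hB, hlen⟩ := ih (insert a S)
    refine ⟨B + Module.finrank k (Ty J S →₀ k),
      fun N => len (N.map (pr k J a)) + Module.finrank k (N.map (tau k J S)),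
      fun N => Nat.add_le_add (hB _) (Submodule.finrank_le _), fun N N' hN hN' hs hlt => ?_⟩
    have hinv : ∀ M : Submodule k ((J → ℕ) →₀ k), Inv S M → Inv (insert a S) (M.map (pr k J a)) := by
      intro M hM g hg y hy
      obtain ⟨z, hz, rfl⟩ := hy
      refine ⟨act k J g z, hM g (fun s hs => hg s (Finset.mem_insert_of_mem hs)) z hz, ?_⟩
      have := pr_act (k := k) g a z
      rwa [hg a (Finset.mem_insert_self _ _)] at this
    have hsupp : N'.map (pr k J a) ≤ Finsupp.supported k k (small J (insert a S) d) := by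
      rintro y ⟨z, hz, rfl⟩
      rw [Finsupp.mem_supported]
      intro t ht
      obtain ⟨ht1, j, hj⟩ := (mem_support_pr a z t).1 ht
      have h1 : t ∈ small J S (d + 1) := (Finsupp.mem_supported k z).1 (hs hz) ht1
      have h2 : ((Finset.univ.image t) \ S).card < d + 1 := h1
      show ((Finset.univ.image t) \ insert a S).card < d
      have h3 : a ∈ (Finset.univ.image t) \ S :=
        Finset.mem_sdiff.2 ⟨Finset.mem_image.2 ⟨j, Finset.mem_univ _, hj⟩, ha⟩
      rw [Finset.sdiff_insert, Finset.card_erase_of_mem h3]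
      have := Finset.card_pos.2 ⟨a, h3⟩
      omega
    have m1 : N.map (pr k J a) ≤ N'.map (pr k J a) := Submodule.map_mono hlt.le
    have m2 : N.map (tau k J S) ≤ N'.map (tau k J S) := Submodule.map_mono hlt.le
    have f2 : Module.finrank k (N.map (tau k J S)) ≤ Module.finrank k (N'.map (tau k J S)) :=
      Submodule.finrank_mono m2
    rcases m1.lt_or_eq with h1 | h1
    · have := hlen _ _ (hinv N hN) (hinv N' hN') hsupp h1
      show len _ + _ < len _ + _
      omega
    · rcases m2.lt_or_eq with h2 | h2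
      · have := Submodule.finrank_lt_finrank_of_lt h2
        show len _ + _ < len _ + _
        rw [h1]
        omega
      · exfalso
        have htriv := trivial_of_pr_eq hN hN' ha h1.ge
        obtain ⟨Θ, hΘ⟩ := key_lemma N.mkQ S N' hN'.swap (fun a ha b hb y hy => by
          rw [Submodule.mkQ_apply, Submodule.mkQ_apply, Submodule.Quotient.eq]
          exact htriv a ha b hb y hy)
        apply hlt.not_ge
        intro y hy
        have : tau k J S y ∈ N.map (tau k J S) := h2 ▸ ⟨y, hy, rfl⟩
        obtain ⟨z, hz, hzy⟩ := this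
        have e1 := hΘ y hy
        have e2 := hΘ z (hlt.le hz)
        rw [hzy, ← e1, Submodule.mkQ_apply, Submodule.mkQ_apply,
          (Submodule.Quotient.mk_eq_zero _).2 hz] at e2
        exact (Submodule.Quotient.mk_eq_zero _).1 e2.symm

/-- The lattice of invariant subspaces of the free module on tuples has finite length. -/
theorem exists_length' : ∃ B : ℕ, ∃ len : Submodule k ((J → ℕ) →₀ k) → ℕ, (∀ N, len N ≤ B) ∧
      ∀ N N', Inv ∅ N → Inv ∅ N' → N < N' → len N < len N' := by
  obtain ⟨B, len, h1, h2⟩ := exists_length (k := k) (J := J) (Fintype.card J + 1) ∅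
  refine ⟨B, len, h1, fun N N' hN hN' h => h2 N N' hN hN' ?_ h⟩
  have : small J ∅ (Fintype.card J + 1) = Set.univ := by
    ext t
    simp only [small, Finset.sdiff_empty, Set.mem_ofPred_eq, Set.mem_univ, iff_true]
    exact Nat.lt_succ_of_le (Finset.card_image_le.trans (by simp))
  rw [this, Finsupp.supported_univ]
  exact le_top

end Pool.Agent.Lib.MP_b23a2c_al
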