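import Mathlib

set_option autoImplicit false

namespace Pool.Agent.Lib.MP_b23a2c_al

open Filter

universe u w

variable {k : Type u} [Field k]

/-- A generalised limit along the cofinite filter on `ℕ`. -/
theorem exists_lim (Q : Type w) [AddCommGroup Q] [Module k Q] :
    ∃ L : (ℕ → Q) →ₗ[k] Q, ∀ (h : ℕ → Q) (c : Q), (∀ᶠ b in cofinite, h b = c) → L h = c := by
  let F : Submodule k (ℕ → Q) :=
    { carrier := {h | ∀ᶠ b in cofinite, h b = 0}
      add_mem' := by
        intro a b ha hb
        show ∀ᶠ x in cofinite, (a + b) x = 0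
        filter_upwards [ha, hb] with x hx hy
        simp [hx, hy]
      zero_mem' := by simp
      smul_mem' := by
        intro c a ha
        show ∀ᶠ x in cofinite, (c • a) x = 0
        filter_upwards [ha] with x hx
        simp [hx] }
  let c0 : Q →ₗ[k] (ℕ → Q) := LinearMap.pi (fun _ => LinearMap.id)
  have hk : (F.mkQ ∘ₗ c0).ker = ⊥ := by
    rw [LinearMap.ker_eq_bot']
    intro q hq
    have h1 : c0 q ∈ F := by simpa using hq
    have h2 : ∀ᶠ b in (cofinite : Filter ℕ), q = 0 := h1
    exact h2.exists.choose_spec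
  obtain ⟨g, hg⟩ := LinearMap.exists_leftInverse_of_injective _ hk
  refine ⟨g ∘ₗ F.mkQ, fun h c hc => ?_⟩
  have h1 : F.mkQ h = F.mkQ (c0 c) := by
    rw [Submodule.mkQ_apply, Submodule.mkQ_apply, Submodule.Quotient.eq]
    show ∀ᶠ b in cofinite, (h - c0 c) b = 0
    filter_upwards [hc] with x hx
    simp [c0, hx]
  have h2 := LinearMap.congr_fun hg c
  simp only [LinearMap.comp_apply, LinearMap.id_apply] at h2 ⊢
  rw [h1, h2]

variable {J : Type} [Fintype J]

/-- The permutation action on the free module on tuples. -/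
noncomputable def act (k : Type u) [Field k] (J : Type) (g : Equiv.Perm ℕ) :
    ((J → ℕ) →₀ k) →ₗ[k] ((J → ℕ) →₀ k) :=
  Finsupp.lmapDomain k k (fun t : J → ℕ => g ∘ t)

omit [Fintype J] in
@[simp] theorem act_single (g : Equiv.Perm ℕ) (t : J → ℕ) (c : k) :
    act k J g (Finsupp.single t c) = Finsupp.single (g ∘ t) c := by
  simp [act]

omit [Fintype J] in
theorem act_act (g h : Equiv.Perm ℕ) (y : (J → ℕ) →₀ k) :
    act k J g (act k J h y) = act k J (g * h) y := by
  induction y using Finsupp.induction_linear with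
  | zero => simp
  | add a b ha hb => simp [ha, hb]
  | single t c => simp [Function.comp_def]

omit [Fintype J] in
theorem act_one (y : (J → ℕ) →₀ k) : act k J 1 y = y := by
  induction y using Finsupp.induction_linear with
  | zero => simp
  | add a b ha hb => simp [ha, hb]
  | single t c => simp

omit [Fintype J] in
theorem act_eq_self (g : Equiv.Perm ℕ) (y : (J → ℕ) →₀ k)
    (h : ∀ t ∈ y.support, ∀ j, g (t j) = t j) : act k J g y = y := by
  have : act k J g y = Finsupp.mapDomain id y := by
    simp only [act, Finsupp.lmapDomain_apply]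
    apply Finsupp.mapDomain_congr
    intro t ht
    funext j
    exact h t ht j
  rw [this, Finsupp.mapDomain_id]

section Psi

variable {Q : Type w} [AddCommGroup Q] [Module k Q]

/-- Iterated generalised limit. -/
noncomputable def Psi (L : (ℕ → Q) →ₗ[k] Q) (q : ((J → ℕ) →₀ k) →ₗ[k] Q) :
    List ℕ → (((J → ℕ) →₀ k) →ₗ[k] Q)
  | [] => q
  | s :: l => L ∘ₗ LinearMap.pi (fun b => Psi L q l ∘ₗ act k J (Equiv.swap s b))

omit [Fintype J] in
theorem Psi_cons (L : (ℕ → Q) →ₗ[k] Q) (q : ((J → ℕ) →₀ k) →ₗ[k] Q) (s : ℕ) (l : List ℕ)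
    (y : (J → ℕ) →₀ k) :
    Psi L q (s :: l) y = L (fun b => Psi L q l (act k J (Equiv.swap s b) y)) := rfl

variable {L : (ℕ → Q) →ₗ[k] Q}
  (hL : ∀ (h : ℕ → Q) (c : Q), (∀ᶠ b in cofinite, h b = c) → L h = c)
include hL

omit [Fintype J] in
theorem lim_congr (h h' : ℕ → Q) (hh : ∀ᶠ b in cofinite, h b = h' b) : L h = L h' := by
  have : L (h - h') = 0 := by
    apply hL
    filter_upwards [hh] with b hb
    simp [hb]
  rw [map_sub] at this
  exact sub_eq_zero.1 this

omit [Fintype J] in
theorem Psi_eq (q : ((J → ℕ) →₀ k) →ₗ[k] Q) (S : Finset ℕ) (N : Submodule k ((J → ℕ) →₀ k))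
    (hN : ∀ a ∉ S, ∀ b ∉ S, ∀ y ∈ N, act k J (Equiv.swap a b) y ∈ N)
    (hq : ∀ a ∉ S, ∀ b ∉ S, ∀ y ∈ N, q (act k J (Equiv.swap a b) y) = q y)
    (l : List ℕ) (hl : ∀ s ∈ l, s ∉ S) : ∀ y ∈ N, Psi L q l y = q y := by
  induction l with
  | nil => intro y _; rfl
  | cons s l ih =>
    intro y hy
    rw [Psi_cons]
    apply hL
    filter_upwards [S.eventually_cofinite_notMem] with b hb
    have hs : s ∉ S := hl s (by simp)
    rw [ih (fun s' hs' => hl s' (by simp [hs'])) _ (hN s hs b hb y hy), hq s hs b hb y hy]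

omit hL in
theorem ev_fresh (t : J → ℕ) : ∀ᶠ b in (cofinite : Filter ℕ), ∀ j, t j ≠ b := by
  filter_upwards [(Finset.univ.image t).eventually_cofinite_notMem] with b hb j hj
  exact hb (Finset.mem_image.2 ⟨j, Finset.mem_univ _, hj⟩)

omit hL in
theorem ev_fresh_list (l : List ℕ) : ∀ᶠ b in (cofinite : Filter ℕ), b ∉ l := by
  filter_upwards [l.toFinset.eventually_cofinite_notMem] with b hb hj
  exact hb (List.mem_toFinset.2 hj)

theorem Psi_filter (q : ((J → ℕ) →₀ k) →ₗ[k] Q) (l : List ℕ) (hl : l.Nodup) :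
    ∀ t : J → ℕ, Psi L q l (Finsupp.single t 1)
      = Psi L q (l.filter (fun s => decide (∃ j, t j = s))) (Finsupp.single t 1) := by
  induction l with
  | nil => intro t; rfl
  | cons s l ih =>
    intro t
    have hs : s ∉ l := (List.nodup_cons.1 hl).1
    have hl' : l.Nodup := (List.nodup_cons.1 hl).2
    by_cases h : ∃ j, t j = s
    · rw [List.filter_cons_of_pos (by simpa using h), Psi_cons, Psi_cons]
      apply lim_congr hL
      filter_upwards [ev_fresh t, ev_fresh_list l] with b hb hbl
      rw [act_single, ih hl']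
      congr 2
      apply List.filter_congr
      intro x hx
      have hxs : x ≠ s := fun e => hs (e ▸ hx)
      have hxb : x ≠ b := fun e => hbl (e ▸ hx)
      have : (∃ j, (Equiv.swap s b ∘ t) j = x) ↔ ∃ j, t j = x := by
        refine exists_congr fun j => ?_
        simp only [Function.comp_apply]
        rw [Equiv.swap_apply_eq_iff, Equiv.swap_apply_of_ne_of_ne hxs hxb]
      simp only [this]
    · rw [List.filter_cons_of_neg (by simpa using h), Psi_cons, ← ih hl']
      apply hL
      filter_upwards [ev_fresh t] with b hb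
      rw [act_single]
      congr 2
      funext j
      exact Equiv.swap_apply_of_ne_of_ne (fun e => h ⟨j, e⟩) (hb j)

theorem Psi_relabel (q : ((J → ℕ) →₀ k) →ₗ[k] Q) (φ : ℕ → ℕ) (l : List ℕ) (hl : l.Nodup)
    (hl2 : (l.map φ).Nodup) :
    ∀ t t' : J → ℕ, (∀ s ∈ l, ∀ j, t j = s ↔ t' j = φ s) → (∀ j, t j ∉ l → t' j = t j) →
      Psi L q l (Finsupp.single t 1) = Psi L q (l.map φ) (Finsupp.single t' 1) := by
  induction l with
  | nil =>
    intro t t' _ h2
    have : t' = t := funext fun j => h2 j (by simp)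
    rw [this]; rfl
  | cons s l ih =>
    intro t t' h1 h2
    have hs : s ∉ l := (List.nodup_cons.1 hl).1
    have hl' : l.Nodup := (List.nodup_cons.1 hl).2
    rw [List.map_cons] at hl2 ⊢
    have hs2 : φ s ∉ l.map φ := (List.nodup_cons.1 hl2).1
    have hl2' : (l.map φ).Nodup := (List.nodup_cons.1 hl2).2
    rw [Psi_cons, Psi_cons]
    apply lim_congr hL
    filter_upwards [ev_fresh t, ev_fresh t', ev_fresh_list l, ev_fresh_list (l.map φ)]
      with b hb hb' hbl hbl'
    rw [act_single, act_single]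
    apply ih hl' hl2'
    · intro x hx j
      have hxs : x ≠ s := fun e => hs (e ▸ hx)
      have hxb : x ≠ b := fun e => hbl (e ▸ hx)
      have hx' : φ x ∈ l.map φ := List.mem_map_of_mem hx
      have hxs' : φ x ≠ φ s := fun e => hs2 (e ▸ hx')
      have hxb' : φ x ≠ b := fun e => hbl' (e ▸ hx')
      simp only [Function.comp_apply]
      rw [Equiv.swap_apply_eq_iff, Equiv.swap_apply_of_ne_of_ne hxs hxb,
        Equiv.swap_apply_eq_iff, Equiv.swap_apply_of_ne_of_ne hxs' hxb']
      exact h1 x (by simp [hx]) j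
    · intro j hj
      simp only [Function.comp_apply] at hj ⊢
      by_cases e : t j = s
      · have e' : t' j = φ s := (h1 s (by simp) j).1 e
        rw [e, e']; simp
      · have e' : t' j ≠ φ s := fun e' => e ((h1 s (by simp) j).2 e')
        rw [Equiv.swap_apply_of_ne_of_ne e (hb j)] at hj ⊢
        rw [Equiv.swap_apply_of_ne_of_ne e' (hb' j)]
        exact h2 j (by simp [e, hj])

end Psi

/-- The finite set of types of tuples relative to `S`. -/
abbrev Ty (J : Type) (S : Finset ℕ) : Type := (J → Option S) × (J → J → Bool)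

/-- The type of a tuple: its entries in `S` and its order pattern. -/
def typ (S : Finset ℕ) (t : J → ℕ) : Ty J S :=
  (fun j => if h : t j ∈ S then some ⟨t j, h⟩ else none, fun i j => decide (t i < t j))

/-- The sums of the coefficients over the types. -/
noncomputable def tau (k : Type u) [Field k] (J : Type) (S : Finset ℕ) :
    ((J → ℕ) →₀ k) →ₗ[k] (Ty J S →₀ k) :=
  Finsupp.lmapDomain k k (typ S)

/-- The increasing list of the entries of `t` outside `S`. -/
noncomputable def freeList (S : Finset ℕ) (t : J → ℕ) : List ℕ :=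
  ((Finset.univ.image t) \ S).sort (· ≤ ·)

theorem mem_freeList (S : Finset ℕ) (t : J → ℕ) (x : ℕ) :
    x ∈ freeList S t ↔ (∃ j, t j = x) ∧ x ∉ S := by
  simp [freeList]

theorem freeList_pairwise (S : Finset ℕ) (t : J → ℕ) : (freeList S t).Pairwise (· < ·) := by
  have := Finset.sortedLT_sort ((Finset.univ.image t) \ S)
  exact this.pairwise

theorem key_lemma {Q : Type w} [AddCommGroup Q] [Module k Q]
    (q : ((J → ℕ) →₀ k) →ₗ[k] Q) (S : Finset ℕ) (N : Submodule k ((J → ℕ) →₀ k))
    (hN : ∀ a ∉ S, ∀ b ∉ S, ∀ y ∈ N, act k J (Equiv.swap a b) y ∈ N)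
    (hq : ∀ a ∉ S, ∀ b ∉ S, ∀ y ∈ N, q (act k J (Equiv.swap a b) y) = q y) :
    ∃ Θ : (Ty J S →₀ k) →ₗ[k] Q, ∀ y ∈ N, q y = Θ (tau k J S y) := by
  classical
  obtain ⟨L, hL⟩ := exists_lim (k := k) Q
  let Φ : (J → ℕ) → Q := fun t => Psi L q (freeList S t) (Finsupp.single t 1)
  have hΦ : ∀ t t', typ S t = typ S t' → Φ t = Φ t' := by
    intro t t' h
    have h1 : ∀ j, (if h : t j ∈ S then some (⟨t j, h⟩ : S) else none)
        = (if h : t' j ∈ S then some (⟨t' j, h⟩ : S) else none) := fun j =>
      congrFun (congrArg Prod.fst h) j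
    have h2 : ∀ i j, t i < t j ↔ t' i < t' j := fun i j => by
      have := congrFun (congrFun (congrArg Prod.snd h) i) j
      simpa [typ] using this
    have h3 : ∀ i j, t i = t j ↔ t' i = t' j := fun i j => by
      have a := h2 i j
      have b := h2 j i
      omega
    have h4 : ∀ j, t j ∈ S ↔ t' j ∈ S := fun j => by
      have := h1 j
      by_cases a : t j ∈ S <;> by_cases b : t' j ∈ S <;> simp_all
    have h5 : ∀ j, t j ∈ S → t' j = t j := fun j a => by
      have := h1 j
      have b := (h4 j).1 a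
      simp only [a, b, dif_pos, Option.some.injEq, Subtype.mk.injEq] at this
      exact this.symm
    let φ : ℕ → ℕ := fun s => if h : ∃ j, t j = s then t' h.choose else 0
    have hφ : ∀ j, φ (t j) = t' j := fun j => by
      have e : ∃ i, t i = t j := ⟨j, rfl⟩
      simp only [φ, dif_pos e]
      exact (h3 _ _).1 e.choose_spec
    have hmap : (freeList S t).map φ = freeList S t' := by
      apply List.Pairwise.eq_of_mem_iff (r := (· < ·))
      · rw [List.pairwise_map]
        refine (freeList_pairwise S t).imp_of_mem ?_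
        intro a b ha hb hab
        obtain ⟨⟨i, rfl⟩, -⟩ := (mem_freeList S t a).1 ha
        obtain ⟨⟨j, rfl⟩, -⟩ := (mem_freeList S t b).1 hb
        rw [hφ, hφ]
        exact (h2 i j).1 hab
      · exact freeList_pairwise S t'
      · intro x
        rw [List.mem_map, mem_freeList]
        constructor
        · rintro ⟨a, ha, rfl⟩
          obtain ⟨⟨i, rfl⟩, hi⟩ := (mem_freeList S t a).1 ha
          rw [hφ]
          exact ⟨⟨i, rfl⟩, fun e => hi ((h4 i).2 e)⟩
        · rintro ⟨⟨i, rfl⟩, hi⟩
          exact ⟨t i, (mem_freeList S t _).2 ⟨⟨i, rfl⟩, fun e => hi ((h4 i).1 e)⟩, hφ i⟩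
    show Psi L q (freeList S t) (Finsupp.single t 1) = Psi L q (freeList S t') (Finsupp.single t' 1)
    rw [← hmap]
    apply Psi_relabel hL
    · exact (freeList_pairwise S t).nodup
    · rw [hmap]; exact (freeList_pairwise S t').nodup
    · intro s hs j
      obtain ⟨⟨i, rfl⟩, -⟩ := (mem_freeList S t s).1 hs
      rw [hφ]; exact h3 j i
    · intro j hj
      apply h5
      by_contra e
      exact hj ((mem_freeList S t _).2 ⟨⟨j, rfl⟩, e⟩)
  let Φ' : Ty J S → Q := fun c => if h : ∃ t, typ S t = c then Φ h.choose else 0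
  have hΦ' : ∀ t, Φ' (typ S t) = Φ t := fun t => by
    have e : ∃ t', typ S t' = typ S t := ⟨t, rfl⟩
    simp only [Φ', dif_pos e]
    exact hΦ _ _ e.choose_spec
  refine ⟨Finsupp.linearCombination k Φ', fun y hy => ?_⟩
  let T : Finset ℕ := (y.support.biUnion (fun t => Finset.univ.image t)) \ S
  let l : List ℕ := T.sort (· ≤ ·)
  have hlp : l.Pairwise (· < ·) := (Finset.sortedLT_sort T).pairwise
  have hlS : ∀ s ∈ l, s ∉ S := fun s hs => by
    have : s ∈ T := by simpa [l] using hs
    exact (Finset.mem_sdiff.1 this).2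
  rw [← Psi_eq hL q S N hN hq l hlS y hy]
  have hy' : y = ∑ t ∈ y.support, y t • Finsupp.single t (1 : k) := by
    conv_lhs => rw [← Finsupp.sum_single y]
    simp [Finsupp.sum]
  rw [hy', map_sum, map_sum, map_sum]
  refine Finset.sum_congr rfl fun t ht => ?_
  rw [map_smul, map_smul, map_smul]
  congr 1
  have e1 : tau k J S (Finsupp.single t 1) = Finsupp.single (typ S t) 1 := by simp [tau]
  rw [e1, Finsupp.linearCombination_single, one_smul, hΦ', Psi_filter hL q l hlp.nodup t]
  show _ = Psi L q (freeList S t) (Finsupp.single t 1)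
  congr 2
  apply List.Pairwise.eq_of_mem_iff (r := (· < ·))
  · exact hlp.filter _
  · exact freeList_pairwise S t
  · intro x
    rw [List.mem_filter, mem_freeList]
    constructor
    · rintro ⟨h1, h2⟩
      exact ⟨by simpa using h2, hlS x h1⟩
    · rintro ⟨⟨j, rfl⟩, h2⟩
      refine ⟨?_, by simp⟩
      have : t j ∈ T := Finset.mem_sdiff.2
        ⟨Finset.mem_biUnion.2 ⟨t, ht, Finset.mem_image.2 ⟨j, Finset.mem_univ _, rfl⟩⟩, h2⟩
      simpa [l] using this

end Pool.Agent.Lib.MP_b23a2c_al
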